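import Mathlib

set_option autoImplicit false

namespace Pool.Agent.H782R3.Smash

open SkewMonoidAlgebra Coalgebra TensorProduct LinearMap

section coalg

variable (k A G : Type*) [Field k] [CommRing A] [HopfAlgebra k A]

noncomputable instance instCoalgebraStruct : CoalgebraStruct k (SkewMonoidAlgebra A G) where
  comul := (Finsupp.lsum k fun i : G =>
    TensorProduct.map (lsingle k i : A →ₗ[k] SkewMonoidAlgebra A G) (lsingle k i) ∘ₗ comul) ∘ₗ
      (coeffLinearEquiv (S := k)).toLinearMap
  counit := (Finsupp.lsum k fun _ : G => (counit : A →ₗ[k] k)) ∘ₗ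
      (coeffLinearEquiv (S := k)).toLinearMap

variable {k A G}

@[simp]
theorem comul_single (i : G) (a : A) :
    comul (R := k) (SkewMonoidAlgebra.single i a) =
      (TensorProduct.map (lsingle k i : A →ₗ[k] SkewMonoidAlgebra A G) (lsingle k i))
        (comul (R := k) a) := by
  change (Finsupp.lsum k fun i : G =>
    TensorProduct.map (lsingle k i : A →ₗ[k] SkewMonoidAlgebra A G) (lsingle k i) ∘ₗ comul)
      (Finsupp.single i a) = _
  rw [Finsupp.lsum_single]
  rfl

@[simp]
theorem counit_single (i : G) (a : A) :
    counit (R := k) (SkewMonoidAlgebra.single i a) = counit (R := k) a := by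
  change (Finsupp.lsum k fun _ : G => (counit : A →ₗ[k] k)) (Finsupp.single i a) = _
  rw [Finsupp.lsum_single]

theorem comul_comp_lsingle (i : G) :
    comul ∘ₗ (lsingle k i : A →ₗ[k] SkewMonoidAlgebra A G) =
      TensorProduct.map (lsingle k i) (lsingle k i) ∘ₗ comul := by
  apply LinearMap.ext
  intro a
  exact comul_single i a

theorem counit_comp_lsingle (i : G) :
    counit ∘ₗ (lsingle k i : A →ₗ[k] SkewMonoidAlgebra A G) = counit := by
  apply LinearMap.ext
  intro a
  exact counit_single i a

noncomputable instance instCoalgebra : Coalgebra k (SkewMonoidAlgebra A G) where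
  rTensor_counit_comp_comul := by
    apply lhom_ext'
    intro i
    rw [comp_assoc, comul_comp_lsingle, ← comp_assoc, rTensor_comp_map, counit_comp_lsingle,
      ← lTensor_comp_rTensor, comp_assoc, rTensor_counit_comp_comul, lTensor_comp_mk]
  lTensor_counit_comp_comul := by
    apply lhom_ext'
    intro i
    rw [comp_assoc, comul_comp_lsingle, ← comp_assoc, lTensor_comp_map, counit_comp_lsingle,
      ← rTensor_comp_lTensor, comp_assoc, lTensor_counit_comp_comul, rTensor_comp_flip_mk]
  coassoc := by
    apply lhom_ext'
    intro i
    simp_rw [comp_assoc, comul_comp_lsingle, ← comp_assoc, lTensor_comp_map, comul_comp_lsingle,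
      comp_assoc, ← comp_assoc comul, rTensor_comp_map, comul_comp_lsingle, ← map_comp_rTensor,
      ← map_comp_lTensor, comp_assoc, ← coassoc, ← comp_assoc comul, ← comp_assoc,
        TensorProduct.map_map_comp_assoc_eq]

end coalg

section alg

variable (k A G : Type*) [Field k] [CommRing A] [HopfAlgebra k A] [Group G]
  [MulSemiringAction G A] [SMulCommClass G k A]

/-- the group acts by coalgebra maps -/
class IsCoalgAction : Prop where
  counit_smul : ∀ (g : G) (a : A), counit (R := k) (g • a) = counit (R := k) a
  comul_smul : ∀ (g : G) (a : A), comul (R := k) (g • a) =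
    (TensorProduct.map (MulSemiringAction.toAlgHom k A g).toLinearMap
      (MulSemiringAction.toAlgHom k A g).toLinearMap) (comul (R := k) a)

variable {k A G} [IsCoalgAction k A G]

theorem map_mul_map (x y : G) (u v : A ⊗[k] A) :
    (TensorProduct.map (lsingle k x : A →ₗ[k] SkewMonoidAlgebra A G) (lsingle k x)) u *
      (TensorProduct.map (lsingle k y : A →ₗ[k] SkewMonoidAlgebra A G) (lsingle k y)) v =
    (TensorProduct.map (lsingle k (x * y) : A →ₗ[k] SkewMonoidAlgebra A G) (lsingle k (x * y)))
      (u * (TensorProduct.map (MulSemiringAction.toAlgHom k A x).toLinearMap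
      (MulSemiringAction.toAlgHom k A x).toLinearMap) v) := by
  induction u with
  | zero => simp
  | add u u' hu hu' => rw [map_add, add_mul, add_mul, map_add, hu, hu']
  | tmul a b =>
    induction v with
    | zero => simp
    | add v v' hv hv' => rw [map_add, mul_add, map_add, mul_add, map_add, hv, hv']
    | tmul c d =>
      simp only [TensorProduct.map_tmul, Algebra.TensorProduct.tmul_mul_tmul, lsingle_apply,
        single_mul_single, AlgHom.toLinearMap_apply, MulSemiringAction.toAlgHom_apply]

noncomputable instance instBialgebra : Bialgebra k (SkewMonoidAlgebra A G) := by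
  refine Bialgebra.mk' k (SkewMonoidAlgebra A G) ?_ ?_ ?_ ?_
  · rw [one_def]
    refine (counit_single (k := k) (1 : G) (1 : A)).trans Bialgebra.counit_one
  · intro a b
    induction a with
    | single x a =>
      induction b with
      | single y b =>
        rw [single_mul_single, counit_single, counit_single, counit_single, Bialgebra.counit_mul,
          IsCoalgAction.counit_smul]
      | add b b' hb hb' => rw [mul_add, map_add, map_add, mul_add, hb, hb']
    | add a a' ha ha' => rw [add_mul, map_add, map_add, add_mul, ha, ha']
  · rw [one_def]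
    refine (comul_single (k := k) (1 : G) (1 : A)).trans ?_
    rw [Bialgebra.comul_one, Algebra.TensorProduct.one_def, Algebra.TensorProduct.one_def,
      TensorProduct.map_tmul]
    rfl
  · intro a b
    induction a with
    | single x a =>
      induction b with
      | single y b =>
        rw [single_mul_single, comul_single, comul_single, comul_single, Bialgebra.comul_mul,
          IsCoalgAction.comul_smul, map_mul_map]
      | add b b' hb hb' => rw [mul_add, map_add, map_add, mul_add, hb, hb']
    | add a a' ha ha' => rw [add_mul, map_add, map_add, add_mul, ha, ha']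

/-- the antipode of the smash product -/
noncomputable def antip : SkewMonoidAlgebra A G →ₗ[k] SkewMonoidAlgebra A G :=
  (Finsupp.lsum k fun i : G =>
    (lsingle k i⁻¹ : A →ₗ[k] SkewMonoidAlgebra A G) ∘ₗ
      (MulSemiringAction.toAlgHom k A i⁻¹).toLinearMap ∘ₗ HopfAlgebra.antipode k) ∘ₗ
      (coeffLinearEquiv (S := k)).toLinearMap

theorem antip_single (i : G) (a : A) :
    antip (k := k) (SkewMonoidAlgebra.single i a) =
      SkewMonoidAlgebra.single i⁻¹ (i⁻¹ • HopfAlgebra.antipode k a) := by
  unfold antip
  change (Finsupp.lsum k _) (Finsupp.single i a) = _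
  rw [Finsupp.lsum_single]
  rfl

noncomputable instance instHopf : HopfAlgebra k (SkewMonoidAlgebra A G) where
  antipode := antip
  mul_antipode_rTensor_comul := by
    apply lhom_ext
    intro i a
    have h1 : ∀ z : A ⊗[k] A, LinearMap.mul' k (SkewMonoidAlgebra A G)
        ((LinearMap.rTensor _ (antip (k := k)))
          ((TensorProduct.map (lsingle k i : A →ₗ[k] SkewMonoidAlgebra A G) (lsingle k i)) z)) =
        SkewMonoidAlgebra.single 1 (i⁻¹ • (LinearMap.mul' k A
          ((LinearMap.rTensor _ (HopfAlgebra.antipode k)) z))) := by
      intro z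
      induction z with
      | zero => simp
      | add z z' hz hz' => simp only [map_add, smul_add, hz, hz', SkewMonoidAlgebra.single_add]
      | tmul b c =>
        simp only [TensorProduct.map_tmul, lsingle_apply, rTensor_tmul, antip_single, mul'_apply,
          single_mul_single, inv_mul_cancel, smul_mul']
    rw [LinearMap.comp_apply, LinearMap.comp_apply, comul_single, h1,
      HopfAlgebra.mul_antipode_rTensor_comul_apply, LinearMap.comp_apply, counit_single,
      smul_algebraMap]
    rfl
  mul_antipode_lTensor_comul := by
    apply lhom_ext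
    intro i a
    have h1 : ∀ z : A ⊗[k] A, LinearMap.mul' k (SkewMonoidAlgebra A G)
        ((LinearMap.lTensor _ (antip (k := k)))
          ((TensorProduct.map (lsingle k i : A →ₗ[k] SkewMonoidAlgebra A G) (lsingle k i)) z)) =
        SkewMonoidAlgebra.single 1 (LinearMap.mul' k A
          ((LinearMap.lTensor _ (HopfAlgebra.antipode k)) z)) := by
      intro z
      induction z with
      | zero => simp
      | add z z' hz hz' => simp only [map_add, hz, hz', SkewMonoidAlgebra.single_add]
      | tmul b c =>
        simp only [TensorProduct.map_tmul, lsingle_apply, lTensor_tmul, antip_single, mul'_apply,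
          single_mul_single, mul_inv_cancel, smul_inv_smul]
    rw [LinearMap.comp_apply, LinearMap.comp_apply, comul_single, h1,
      HopfAlgebra.mul_antipode_lTensor_comul_apply, LinearMap.comp_apply, counit_single]
    rfl

end alg

end Pool.Agent.H782R3.Smash
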