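import Mathlib
import Pool.Agent.H782R3.Smash

set_option autoImplicit false

namespace Pool.Agent.H782R3.Trunc

open Polynomial TensorProduct

/-- `k[x]/(x^4)`; the parameter `lam` is a label which later selects a group action -/
def TA (k : Type) [Field k] (_lam : k) : Type := AdjoinRoot (X ^ 4 : k[X])

section basics

variable {k : Type} [Field k] {lam : k}

noncomputable instance instCommRing : CommRing (TA k lam) :=
  inferInstanceAs (CommRing (AdjoinRoot (X ^ 4 : k[X])))

noncomputable instance instAlgebra : Algebra k (TA k lam) :=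
  inferInstanceAs (Algebra k (AdjoinRoot (X ^ 4 : k[X])))

instance instFinite : Module.Finite k (TA k lam) :=
  (monic_X_pow (R := k) 4).finite_adjoinRoot

/-- the generator `x` -/
noncomputable def rt : TA k lam := AdjoinRoot.root (X ^ 4 : k[X])

theorem rt_pow : (rt : TA k lam) ^ 4 = 0 := by
  have h := AdjoinRoot.eval₂_root (X ^ 4 : k[X])
  rw [eval₂_X_pow] at h
  exact h

/-- maps out of `k[x]/(x^4)` -/
noncomputable def lft {T : Type*} [CommRing T] [Algebra k T] (t : T) (ht : t ^ 4 = 0) :
    TA k lam →ₐ[k] T :=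
  AdjoinRoot.liftAlgHom (X ^ 4 : k[X]) (Algebra.ofId k T) t (by simp [ht])

@[simp]
theorem lft_rt {T : Type*} [CommRing T] [Algebra k T] (t : T) (ht : t ^ 4 = 0) :
    lft (k := k) (lam := lam) t ht rt = t := by
  unfold lft rt
  exact AdjoinRoot.liftAlgHom_root _ _ _ _

theorem hom_ext {T : Type*} [Semiring T] [Algebra k T] {f g : TA k lam →ₐ[k] T}
    (h : f rt = g rt) : f = g :=
  AdjoinRoot.algHom_ext (f := (X ^ 4 : k[X])) (g₁ := f) (g₂ := g) h

theorem lin_ext {M : Type*} [AddCommMonoid M] [Module k M] {f g : TA k lam →ₗ[k] M}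
    (h : ∀ n : ℕ, f (rt ^ n) = g (rt ^ n)) : f = g := by
  apply LinearMap.ext
  intro a
  obtain ⟨p, rfl⟩ := AdjoinRoot.mk_surjective a
  induction p using Polynomial.induction_on' with
  | add p q hp hq =>
    rw [map_add]
    exact (map_add f _ _).trans ((congrArg₂ (· + ·) hp hq).trans (map_add g _ _).symm)
  | monomial n c =>
    have e : AdjoinRoot.mk (X ^ 4 : k[X]) (monomial n c) = c • (rt : TA k lam) ^ n := by
      rw [← C_mul_X_pow_eq_monomial, map_mul, map_pow, AdjoinRoot.mk_X, AdjoinRoot.mk_C,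
        Algebra.smul_def]
      rfl
    rw [e]
    exact (map_smul f _ _).trans ((congrArg (c • ·) (h n)).trans (map_smul g _ _).symm)

end basics

section hopf

variable {k : Type} [Field k] [CharP k 2] {lam : k}

theorem two_eq {T : Type*} [CommRing T] [Algebra k T] : (2 : T) = 0 := by
  have h : (2 : k) = 0 := CharTwo.two_eq_zero
  have := congrArg (algebraMap k T) h
  rwa [map_ofNat, map_zero] at this

theorem add_pow4 {T : Type*} [CommRing T] [Algebra k T] (a b : T) (ha : a ^ 4 = 0)
    (hb : b ^ 4 = 0) : (a + b) ^ 4 = 0 := by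
  have h2 : (2 : T) = 0 := two_eq (k := k)
  linear_combination ha + hb + (2 * a ^ 3 * b + 3 * a ^ 2 * b ^ 2 + 2 * a * b ^ 3) * h2

/-- the comultiplication: `x` is primitive -/
noncomputable def cm : TA k lam →ₐ[k] TA k lam ⊗[k] TA k lam :=
  lft ((rt : TA k lam) ⊗ₜ 1 + 1 ⊗ₜ (rt : TA k lam)) (by
    apply add_pow4 (k := k)
    · rw [Algebra.TensorProduct.tmul_pow, rt_pow, zero_tmul]
    · rw [Algebra.TensorProduct.tmul_pow, rt_pow, tmul_zero])

omit [CharP k 2] in
noncomputable def cu : TA k lam →ₐ[k] k := lft 0 (by simp)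

noncomputable instance instBialgebraTA : Bialgebra k (TA k lam) :=
  Bialgebra.ofAlgHom cm cu
    (by
      apply hom_ext
      simp [cm, Algebra.TensorProduct.one_def, tmul_add, add_tmul, add_assoc])
    (by
      apply hom_ext
      simp [cm, cu])
    (by
      apply hom_ext
      simp [cm, cu])

theorem comul_rt : Coalgebra.comul (R := k) (rt : TA k lam) =
    (rt : TA k lam) ⊗ₜ 1 + 1 ⊗ₜ (rt : TA k lam) := by
  change cm (rt : TA k lam) = _
  simp [cm]

theorem counit_rt : Coalgebra.counit (R := k) (rt : TA k lam) = 0 := by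
  change cu (rt : TA k lam) = _
  simp [cu]

theorem mul_comul (a : TA k lam) :
    LinearMap.mul' k (TA k lam) (Coalgebra.comul (R := k) a) =
      algebraMap k (TA k lam) (Coalgebra.counit (R := k) a) := by
  have h : (Algebra.TensorProduct.lmul' k (S := TA k lam)).comp
      (Bialgebra.comulAlgHom k (TA k lam)) =
      (Algebra.ofId k (TA k lam)).comp (Bialgebra.counitAlgHom k (TA k lam)) := by
    apply hom_ext
    have h2 : (2 : TA k lam) = 0 := two_eq (k := k)
    rw [AlgHom.comp_apply, AlgHom.comp_apply, Bialgebra.comulAlgHom_apply, comul_rt,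
      Bialgebra.counitAlgHom_apply, counit_rt, map_zero, map_add,
      Algebra.TensorProduct.lmul'_apply_tmul, Algebra.TensorProduct.lmul'_apply_tmul]
    linear_combination (rt : TA k lam) * h2
  exact DFunLike.congr_fun h a

noncomputable instance instHopfTA : HopfAlgebra k (TA k lam) where
  antipode := LinearMap.id
  mul_antipode_rTensor_comul := by
    rw [LinearMap.rTensor_id, LinearMap.id_comp]
    exact LinearMap.ext mul_comul
  mul_antipode_lTensor_comul := by
    rw [LinearMap.lTensor_id, LinearMap.id_comp]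
    exact LinearMap.ext mul_comul

omit [CharP k 2] in
/-- the automorphism `x ↦ x + t x^2` -/
noncomputable def sig (t : k) : TA k lam →ₐ[k] TA k lam :=
  lft ((rt : TA k lam) + t • (rt : TA k lam) ^ 2) (by
    have h : ((rt : TA k lam) + t • (rt : TA k lam) ^ 2) ^ 4 =
      (rt : TA k lam) ^ 4 * (1 + t • (rt : TA k lam)) ^ 4 := by
      rw [Algebra.smul_def, Algebra.smul_def]
      ring
    rw [h, rt_pow, zero_mul])

omit [CharP k 2] in
theorem sig_rt (t : k) : sig t (rt : TA k lam) =
    (rt : TA k lam) + t • (rt : TA k lam) ^ 2 := by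
  simp [sig]

omit [CharP k 2] in
theorem sig_zero : sig (0 : k) = AlgHom.id k (TA k lam) := by
  apply hom_ext
  simp [sig_rt]

theorem sig_add (s t : k) : sig (lam := lam) (s + t) = (sig s).comp (sig t) := by
  apply hom_ext
  rw [AlgHom.comp_apply, sig_rt, sig_rt, map_add, map_smul, map_pow, sig_rt]
  have h2 : (2 : TA k lam) = 0 := two_eq (k := k)
  have h4 := rt_pow (k := k) (lam := lam)
  simp only [Algebra.smul_def, map_add]
  linear_combination (-(algebraMap k (TA k lam) t) * (algebraMap k (TA k lam) s) ^ 2) * h4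
    - (algebraMap k (TA k lam) t) * (algebraMap k (TA k lam) s) * (rt : TA k lam) ^ 3 * h2

omit [CharP k 2] in
theorem sig_rt_pow (t : k) (n : ℕ) :
    sig t ((rt : TA k lam) ^ n) =
      (rt : TA k lam) ^ n + t • ((n : TA k lam) * (rt : TA k lam) ^ (n + 1)) := by
  induction n with
  | zero => simp
  | succ n ih =>
    rw [pow_succ, map_mul, ih, sig_rt]
    have h4 := rt_pow (k := k) (lam := lam)
    have h5 : (n : TA k lam) * (rt : TA k lam) ^ (n + 3) = 0 := by
      rcases n with _ | n
      · simp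
      · rw [show n + 1 + 3 = n + 4 by ring, pow_add, h4]; simp
    simp only [Algebra.smul_def]
    push_cast
    linear_combination (algebraMap k (TA k lam) t) ^ 2 * h5

omit [CharP k 2] in
/-- `σ_t = 1 + t D` with `D = σ_1 - 1` -/
theorem sig_eq (t : k) (a : TA k lam) : sig t a = a + t • (sig 1 a - a) := by
  have h : (sig t).toLinearMap = LinearMap.id + t • ((sig 1).toLinearMap -
      (LinearMap.id : TA k lam →ₗ[k] TA k lam)) := by
    apply lin_ext
    intro n
    simp only [AlgHom.toLinearMap_apply, LinearMap.add_apply, LinearMap.smul_apply,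
      LinearMap.sub_apply, LinearMap.id_apply, sig_rt_pow, one_smul, add_sub_cancel_left]
  exact DFunLike.congr_fun h a

theorem counit_sig (t : k) (a : TA k lam) :
    Coalgebra.counit (R := k) (sig t a) = Coalgebra.counit (R := k) a := by
  have h : (Bialgebra.counitAlgHom k (TA k lam)).comp (sig t) =
      Bialgebra.counitAlgHom k (TA k lam) := by
    apply hom_ext
    rw [AlgHom.comp_apply, sig_rt, map_add, map_smul, map_pow, Bialgebra.counitAlgHom_apply,
      counit_rt]
    simp
  exact DFunLike.congr_fun h a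

theorem comul_sq : Coalgebra.comul (R := k) ((rt : TA k lam) ^ 2) =
    ((rt : TA k lam) ^ 2) ⊗ₜ 1 + 1 ⊗ₜ ((rt : TA k lam) ^ 2) := by
  rw [Bialgebra.comul_pow, comul_rt]
  have h2 : (2 : TA k lam ⊗[k] TA k lam) = 0 := two_eq (k := k)
  have e1 : ((rt : TA k lam) ^ 2) ⊗ₜ[k] (1 : TA k lam) =
    ((rt : TA k lam) ⊗ₜ[k] (1 : TA k lam)) ^ 2 := by
    rw [Algebra.TensorProduct.tmul_pow, one_pow]
  have e2 : (1 : TA k lam) ⊗ₜ[k] ((rt : TA k lam) ^ 2) =
    ((1 : TA k lam) ⊗ₜ[k] (rt : TA k lam)) ^ 2 := by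
    rw [Algebra.TensorProduct.tmul_pow, one_pow]
  rw [e1, e2]
  linear_combination ((rt : TA k lam) ⊗ₜ[k] (1 : TA k lam)) *
    ((1 : TA k lam) ⊗ₜ[k] (rt : TA k lam)) * h2

theorem comul_sig (t : k) (a : TA k lam) :
    Coalgebra.comul (R := k) (sig t a) =
      (TensorProduct.map (sig t).toLinearMap (sig t).toLinearMap)
        (Coalgebra.comul (R := k) a) := by
  have h : (Bialgebra.comulAlgHom k (TA k lam)).comp (sig t) =
      (Algebra.TensorProduct.map (sig t : TA k lam →ₐ[k] TA k lam)
        (sig t : TA k lam →ₐ[k] TA k lam)).comp (Bialgebra.comulAlgHom k (TA k lam)) := by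
    apply hom_ext
    have e1 : (1 : TA k lam) ⊗ₜ[k] (t • ((rt : TA k lam) ^ 2)) =
        t • ((1 : TA k lam) ⊗ₜ[k] ((rt : TA k lam) ^ 2)) := TensorProduct.tmul_smul _ _ _
    have e2 : (t • ((rt : TA k lam) ^ 2)) ⊗ₜ[k] (1 : TA k lam) =
        t • (((rt : TA k lam) ^ 2) ⊗ₜ[k] (1 : TA k lam)) := rfl
    rw [AlgHom.comp_apply, AlgHom.comp_apply, sig_rt, map_add, map_smul,
      Bialgebra.comulAlgHom_apply, Bialgebra.comulAlgHom_apply, comul_rt, comul_sq, map_add,
      Algebra.TensorProduct.map_tmul, Algebra.TensorProduct.map_tmul, sig_rt, map_one,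
      add_tmul, tmul_add, smul_add, e1, e2]
    abel
  exact DFunLike.congr_fun h a

end hopf

end Pool.Agent.H782R3.Trunc
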