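import Mathlib
import Pool.Agent.H782R3.Smash
import Pool.Agent.H782R3.TruncHopf

set_option autoImplicit false

namespace Pool.Agent.H782R3.Bicross

open Polynomial TensorProduct Pool.Agent.H782R3.Trunc Pool.Agent.H782R3.Smash

/-- the elementary abelian group of order four, written multiplicatively -/
abbrev G4 : Type := Multiplicative (ZMod 2 × ZMod 2)

variable {k : Type} [Field k] [CharP k 2]

/-- the parameter of a group element -/
noncomputable def par (lam : k) (p : ZMod 2 × ZMod 2) : k :=
  ZMod.castHom (dvd_refl 2) k p.1 + ZMod.castHom (dvd_refl 2) k p.2 * lam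

theorem par_add (lam : k) (p q : ZMod 2 × ZMod 2) : par lam (p + q) = par lam p + par lam q := by
  unfold par
  rw [Prod.fst_add, Prod.snd_add, map_add, map_add]
  ring

theorem par_zero (lam : k) : par lam 0 = 0 := by simp [par]

noncomputable instance instAction (lam : k) : MulSemiringAction G4 (TA k lam) where
  smul g a := sig (par lam (Multiplicative.toAdd g)) a
  one_smul a := by
    change sig (par lam (Multiplicative.toAdd (1 : G4))) a = a
    rw [toAdd_one, par_zero, sig_zero]
    rfl
  mul_smul g h a := by
    change sig (par lam (Multiplicative.toAdd (g * h))) a = sig _ (sig _ a)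
    rw [toAdd_mul, par_add, sig_add]
    rfl
  smul_zero g := map_zero (sig _)
  smul_add _ a b := map_add (sig _) a b
  smul_one _ := map_one (sig _)
  smul_mul _ a b := map_mul (sig _) a b

theorem smul_def' (lam : k) (g : G4) (a : TA k lam) :
    g • a = sig (par lam (Multiplicative.toAdd g)) a := rfl

noncomputable instance instSMulComm (lam : k) : SMulCommClass G4 k (TA k lam) where
  smul_comm g c a := map_smul (sig (par lam (Multiplicative.toAdd g))) c a

noncomputable instance instIsCoalgAction (lam : k) : IsCoalgAction k (TA k lam) G4 where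
  counit_smul _ a := counit_sig _ a
  comul_smul _ a := comul_sig _ a

/-- the smash product -/
abbrev E (lam : k) : Type := SkewMonoidAlgebra (TA k lam) G4

noncomputable instance instHopfE (lam : k) : HopfAlgebra k (E lam) := Smash.instHopf

/-- relabelling -/
noncomputable def relabel (lam mu : k) : TA k lam →ₐ[k] TA k mu := lft rt rt_pow

omit [CharP k 2] in
theorem relabel_relabel (lam mu : k) (a : TA k lam) : relabel mu lam (relabel lam mu a) = a := by
  have h : (relabel mu lam).comp (relabel lam mu) = AlgHom.id k (TA k lam) := by
    apply hom_ext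
    simp [relabel]
  exact DFunLike.congr_fun h a

/-- the inclusion of `TA` as an algebra map -/
noncomputable def incA (lam : k) : TA k lam →ₐ[k] E lam where
  toRingHom := SkewMonoidAlgebra.singleOneRingHom
  commutes' _ := rfl

theorem incA_apply (lam : k) (a : TA k lam) : incA lam a = SkewMonoidAlgebra.single 1 a := rfl

/-- the inclusion of the fixed Hopf algebra `A = TA k 0` -/
noncomputable def incBi (lam : k) : BialgHom k (TA k (0 : k)) (E lam) :=
  BialgHom.ofAlgHom ((incA lam).comp (relabel 0 lam))
    (by
      apply hom_ext
      rw [AlgHom.comp_apply, AlgHom.comp_apply, relabel, lft_rt, incA_apply,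
        Bialgebra.counitAlgHom_apply, Bialgebra.counitAlgHom_apply, Smash.counit_single,
        counit_rt, counit_rt])
    (by
      apply hom_ext
      rw [AlgHom.comp_apply, AlgHom.comp_apply, AlgHom.comp_apply, Bialgebra.comulAlgHom_apply,
        Bialgebra.comulAlgHom_apply, comul_rt, map_add, Algebra.TensorProduct.map_tmul,
        Algebra.TensorProduct.map_tmul, AlgHom.comp_apply, map_one, relabel, lft_rt, incA_apply,
        Smash.comul_single, comul_rt, map_add, TensorProduct.map_tmul, TensorProduct.map_tmul]
      rfl)

/-- the inclusion of the group algebra -/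
noncomputable def incG (lam : k) : BialgHom k (MonoidAlgebra k G4) (E lam) :=
  BialgHom.ofAlgHom (MonoidAlgebra.lift k (E lam) G4 (SkewMonoidAlgebra.of (TA k lam) G4))
    (by
      apply MonoidAlgebra.algHom_ext
      · intro g
        rw [AlgHom.comp_apply, MonoidAlgebra.lift_single, SkewMonoidAlgebra.of_apply, one_smul,
          Bialgebra.counitAlgHom_apply, Bialgebra.counitAlgHom_apply, Smash.counit_single,
          Bialgebra.counit_one, MonoidAlgebra.counit_single]
        rfl
      · exact Subsingleton.elim _ _)
    (by
      apply MonoidAlgebra.algHom_ext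
      · intro g
        have e1 : Coalgebra.comul (R := k) (MonoidAlgebra.single g (1 : k)) =
            MonoidAlgebra.single g (1 : k) ⊗ₜ[k] MonoidAlgebra.single g (1 : k) := by
          rw [MonoidAlgebra.comul_single, Bialgebra.comul_one, Algebra.TensorProduct.one_def,
            TensorProduct.map_tmul]
          rfl
        have e2 : Coalgebra.comul (R := k) (SkewMonoidAlgebra.single g (1 : TA k lam) : E lam) =
            SkewMonoidAlgebra.single g (1 : TA k lam) ⊗ₜ[k]
              SkewMonoidAlgebra.single g (1 : TA k lam) := by
          rw [Smash.comul_single, Bialgebra.comul_one, Algebra.TensorProduct.one_def,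
            TensorProduct.map_tmul]
          rfl
        rw [AlgHom.comp_apply, AlgHom.comp_apply, Bialgebra.comulAlgHom_apply,
          Bialgebra.comulAlgHom_apply, MonoidAlgebra.lift_single,
          SkewMonoidAlgebra.of_apply, one_smul, e1, e2, Algebra.TensorProduct.map_tmul,
          MonoidAlgebra.lift_single, SkewMonoidAlgebra.of_apply, one_smul]
      · exact Subsingleton.elim _ _)

theorem incBi_apply (lam : k) (a : TA k (0 : k)) :
    incBi lam a = SkewMonoidAlgebra.single 1 (relabel 0 lam a) := rfl

theorem incG_single (lam : k) (g : G4) (c : k) :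
    incG lam (MonoidAlgebra.single g c) = SkewMonoidAlgebra.single g (c • (1 : TA k lam)) := by
  change (MonoidAlgebra.lift k (E lam) G4 _) (MonoidAlgebra.single g c) = _
  rw [MonoidAlgebra.lift_single, SkewMonoidAlgebra.of_apply, SkewMonoidAlgebra.smul_single]

theorem incBi_injective (lam : k) : Function.Injective (incBi lam) := by
  intro a b h
  rw [incBi_apply, incBi_apply] at h
  have h' := SkewMonoidAlgebra.single_injective _ h
  rw [← relabel_relabel 0 lam a, h', relabel_relabel]

theorem nontriv (lam : k) : (1 : TA k lam) ≠ 0 := by
  intro h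
  have := congrArg (Coalgebra.counit (R := k)) h
  rw [Bialgebra.counit_one, map_zero] at this
  exact one_ne_zero this


instance instFiniteE (lam : k) : Module.Finite k (E lam) :=
  Module.Finite.equiv (SkewMonoidAlgebra.coeffLinearEquiv (S := k) (k := TA k lam) (G := G4)).symm

omit [CharP k 2] in
theorem finrank_TA (lam : k) : Module.finrank k (TA k lam) = 4 := by
  have h := (AdjoinRoot.powerBasis' (monic_X_pow (R := k) 4)).finrank
  rw [AdjoinRoot.powerBasis'_dim, natDegree_X_pow] at h
  exact h

omit [CharP k 2] in
theorem finrank_E (lam : k) : Module.finrank k (E lam) = 16 := by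
  rw [LinearEquiv.finrank_eq
    (SkewMonoidAlgebra.coeffLinearEquiv (S := k) (k := TA k lam) (G := G4)),
    Module.finrank_finsupp, finrank_TA]
  rfl

theorem bij (lam : k) : Function.Bijective
    (TensorProduct.lift
      (((LinearMap.mul k (E lam)).comp (incBi lam).toLinearMap).compl₂
        (incG lam).toLinearMap)) := by
  have hs : Function.Surjective
    (TensorProduct.lift
      (((LinearMap.mul k (E lam)).comp (incBi lam).toLinearMap).compl₂
        (incG lam).toLinearMap)) := by
    intro u
    induction u using SkewMonoidAlgebra.induction_on' with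
    | single g a =>
      refine ⟨relabel lam 0 a ⊗ₜ MonoidAlgebra.single g 1, ?_⟩
      rw [TensorProduct.lift.tmul]
      change incBi lam (relabel lam 0 a) * incG lam (MonoidAlgebra.single g 1) = _
      rw [incBi_apply, incG_single, relabel_relabel, SkewMonoidAlgebra.single_mul_single, one_mul,
        one_smul, one_smul, mul_one]
    | add u v hu hv =>
      obtain ⟨x, hx⟩ := hu
      obtain ⟨y, hy⟩ := hv
      exact ⟨x + y, by rw [map_add, hx, hy]⟩
  refine ⟨?_, hs⟩
  refine (LinearMap.injective_iff_surjective_of_finrank_eq_finrank ?_).2 hs
  rw [Module.finrank_tensorProduct, finrank_TA, finrank_E]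
  have h : Module.finrank k (MonoidAlgebra k G4) = 4 := by
    rw [LinearEquiv.finrank_eq (MonoidAlgebra.coeffLinearEquiv k), Module.finrank_finsupp,
      Module.finrank_self]
    rfl
  rw [h]

theorem incG_injective (lam : k) : Function.Injective (incG lam) := by
  intro a b h
  have h1 := (bij lam).1
  have h2 : ((1 : TA k (0 : k)) ⊗ₜ[k] a : TA k (0 : k) ⊗[k] MonoidAlgebra k G4) =
      (1 : TA k (0 : k)) ⊗ₜ[k] b := by
    apply h1
    rw [TensorProduct.lift.tmul, TensorProduct.lift.tmul]
    change incBi lam 1 * incG lam a = incBi lam 1 * incG lam b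
    rw [h]
  have h3 := congrArg (TensorProduct.lid k (MonoidAlgebra k G4) ∘
    (TensorProduct.map (Coalgebra.counit (R := k) (A := TA k (0 : k))) LinearMap.id)) h2
  simpa using h3

end Pool.Agent.H782R3.Bicross
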