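import Mathlib
import Pool.Agent.H782R3.BicrossedMain

set_option autoImplicit false

namespace Pool.Agent.H782R3.Bicross

open Polynomial TensorProduct Pool.Agent.H782R3.Trunc Pool.Agent.H782R3.Smash

theorem tmul_eq_zero' {k V W : Type*} [Field k] [AddCommGroup V] [Module k V] [AddCommGroup W]
    [Module k W] {a : V} {b : W} (h : a ⊗ₜ[k] b = 0) : a = 0 ∨ b = 0 := by
  by_contra hc
  push Not at hc
  obtain ⟨ha, hb⟩ := hc
  obtain ⟨f, hf⟩ : ∃ f : Module.Dual k V, f a ≠ 0 := by
    by_contra hf
    push Not at hf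
    exact ha ((Module.forall_dual_apply_eq_zero_iff k a).1 hf)
  obtain ⟨g, hg⟩ : ∃ g : Module.Dual k W, g b ≠ 0 := by
    by_contra hg
    push Not at hg
    exact hb ((Module.forall_dual_apply_eq_zero_iff k b).1 hg)
  have h1 := congrArg (TensorProduct.lid k k ∘ (TensorProduct.map f g)) h
  simp only [Function.comp_apply, TensorProduct.map_tmul, TensorProduct.lid_tmul, map_zero,
    smul_eq_mul] at h1
  exact (mul_ne_zero hf hg) h1

variable {k : Type} [Field k] [CharP k 2]

/-- coefficient functional -/
noncomputable def cf (mu : k) (g : G4) : E mu →ₗ[k] TA k mu :=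
  (Finsupp.lapply g) ∘ₗ (SkewMonoidAlgebra.coeffLinearEquiv (S := k)).toLinearMap

omit [CharP k 2] in
theorem cf_apply (mu : k) (g : G4) (u : E mu) : cf mu g u = u.coeff g := rfl

theorem map_cf_comul (mu : k) {g h : G4} (hgh : g ≠ h) (u : E mu) :
    (TensorProduct.map (cf mu g) (cf mu h)) (Coalgebra.comul (R := k) u) = 0 := by
  induction u using SkewMonoidAlgebra.induction_on' with
  | single i a =>
    rw [Smash.comul_single, ← LinearMap.comp_apply, ← TensorProduct.map_comp]
    by_cases hi : i = g
    · have h0 : (cf mu h) ∘ₗ (SkewMonoidAlgebra.lsingle k i : TA k mu →ₗ[k] E mu) = 0 := by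
        apply LinearMap.ext
        intro b
        rw [LinearMap.comp_apply, SkewMonoidAlgebra.lsingle_apply, cf_apply,
          SkewMonoidAlgebra.coeff_single, Finsupp.single_apply, if_neg]
        · rfl
        · rw [hi]; exact hgh
      rw [h0, TensorProduct.map_zero_right, LinearMap.zero_apply]
    · have h0 : (cf mu g) ∘ₗ (SkewMonoidAlgebra.lsingle k i : TA k mu →ₗ[k] E mu) = 0 := by
        apply LinearMap.ext
        intro b
        rw [LinearMap.comp_apply, SkewMonoidAlgebra.lsingle_apply, cf_apply,
          SkewMonoidAlgebra.coeff_single, Finsupp.single_apply, if_neg hi]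
        rfl
      rw [h0, TensorProduct.map_zero_left, LinearMap.zero_apply]
  | add u v hu hv => rw [map_add, map_add, hu, hv, add_zero]

theorem grouplike_single (mu : k) (u : E mu) (hu : IsGroupLikeElem k u) :
    ∃ (g : G4) (b : TA k mu), u = SkewMonoidAlgebra.single g b := by
  have hne : u ≠ 0 := hu.ne_zero
  obtain ⟨g, hg⟩ : ∃ g, u.coeff g ≠ 0 := by
    by_contra hc
    push Not at hc
    exact hne (SkewMonoidAlgebra.ext (by simpa using hc))
  refine ⟨g, u.coeff g, ?_⟩
  apply SkewMonoidAlgebra.ext
  intro h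
  rw [SkewMonoidAlgebra.coeff_single, Finsupp.single_apply]
  split_ifs with hgh
  · rw [hgh]
  · have h1 := map_cf_comul mu hgh u
    rw [hu.comul_eq_tmul_self, TensorProduct.map_tmul] at h1
    rcases tmul_eq_zero' h1 with h2 | h2
    · exact absurd h2 hg
    · exact h2

theorem primitive_single (mu : k) (v : E mu)
    (hv : Coalgebra.comul (R := k) v = v ⊗ₜ 1 + 1 ⊗ₜ v) :
    ∃ a : TA k mu, v = SkewMonoidAlgebra.single 1 a := by
  refine ⟨v.coeff 1, ?_⟩
  apply SkewMonoidAlgebra.ext
  intro h
  rw [SkewMonoidAlgebra.coeff_single, Finsupp.single_apply]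
  split_ifs with hgh
  · rw [hgh]
  · have h1 := map_cf_comul mu (Ne.symm hgh) v
    have e1 : cf mu h (1 : E mu) = 0 := by
      rw [cf_apply, SkewMonoidAlgebra.one_def, SkewMonoidAlgebra.coeff_single,
        Finsupp.single_apply, if_neg hgh]
    have e2 : cf mu 1 (1 : E mu) = 1 := by
      rw [cf_apply, SkewMonoidAlgebra.one_def, SkewMonoidAlgebra.coeff_single,
        Finsupp.single_apply, if_pos rfl]
    rw [hv, map_add, TensorProduct.map_tmul, TensorProduct.map_tmul, e1, e2,
      TensorProduct.zero_tmul, add_zero] at h1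
    rcases tmul_eq_zero' h1 with h2 | h2
    · exact h2
    · exact absurd h2 (nontriv mu)

omit [CharP k 2] in
theorem rt_sq_ne_zero (lam : k) : (rt : TA k lam) ^ 2 ≠ 0 := by
  intro h
  have h1 : AdjoinRoot.mk (X ^ 4 : k[X]) (X ^ 2) = 0 := by
    rw [map_pow, AdjoinRoot.mk_X]
    exact h
  rw [AdjoinRoot.mk_eq_zero] at h1
  have h2 := natDegree_le_of_dvd h1 (pow_ne_zero 2 X_ne_zero)
  simp at h2

theorem s1g (mu : k) (g : G4) (a b : TA k mu) :
    (SkewMonoidAlgebra.single 1 a : E mu) * SkewMonoidAlgebra.single g b =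
      SkewMonoidAlgebra.single g (a * b) := by
  rw [SkewMonoidAlgebra.single_mul_single, one_mul, one_smul]

theorem sg1 (mu : k) (g : G4) (a b : TA k mu) :
    (SkewMonoidAlgebra.single g b : E mu) * SkewMonoidAlgebra.single 1 a =
      SkewMonoidAlgebra.single g (b * g • a) := by
  rw [SkewMonoidAlgebra.single_mul_single, mul_one]

/-- The key invariant: an isomorphism forces an `𝔽₂`-rational relation between parameters. -/
theorem key (lam mu : k) (f : BialgEquiv k (E lam) (E mu)) :
    ∃ p q : ZMod 2 × ZMod 2, par mu p ≠ 0 ∧ par mu q = lam * par mu p := by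
  have fmul : ∀ a b : E lam, f (a * b) = f a * f b := fun a b => map_mul f a b
  have fadd : ∀ a b : E lam, f (a + b) = f a + f b := fun a b => map_add f a b
  have fone : f (1 : E lam) = 1 := map_one f
  have finj : Function.Injective f := f.injective
  have fsmul : ∀ (c : k) (a : E lam), f (c • a) = c • f a := fun c a => map_smul f c a
  -- the primitive element
  set x : E lam := SkewMonoidAlgebra.single 1 (rt : TA k lam) with hx
  have hxprim : Coalgebra.comul (R := k) x = x ⊗ₜ 1 + 1 ⊗ₜ x := by
    rw [hx, Smash.comul_single, comul_rt, map_add, TensorProduct.map_tmul, TensorProduct.map_tmul]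
    rfl
  have hvprim : Coalgebra.comul (R := k) (f x) = f x ⊗ₜ 1 + 1 ⊗ₜ f x := by
    rw [← CoalgHomClass.map_comp_comul_apply, hxprim, map_add, TensorProduct.map_tmul,
      TensorProduct.map_tmul]
    change f x ⊗ₜ[k] f 1 + f 1 ⊗ₜ[k] f x = _
    rw [fone]
  obtain ⟨a, ha⟩ := primitive_single mu _ hvprim
  -- the square of `a` is not zero
  have hsq : a ^ 2 ≠ 0 := by
    intro h0
    have h1 : f (x * x) = 0 := by
      rw [fmul, ha, s1g, ← pow_two, h0, SkewMonoidAlgebra.single_zero]
    have h2 : x * x = 0 := finj (h1.trans (map_zero f).symm)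
    rw [hx, s1g, SkewMonoidAlgebra.single_eq_zero, ← pow_two] at h2
    exact rt_sq_ne_zero lam h2
  -- group-like elements
  have hrel : ∀ g : G4, ∃ d : G4,
      par mu (Multiplicative.toAdd d) • (sig 1 a - a) = par lam (Multiplicative.toAdd g) • a ^ 2 := by
    intro g
    have hgl : ∀ g : G4, IsGroupLikeElem k (SkewMonoidAlgebra.single g (1 : TA k lam) : E lam) := by
      intro g
      constructor
      · rw [Smash.counit_single, Bialgebra.counit_one]
      · rw [Smash.comul_single, Bialgebra.comul_one, Algebra.TensorProduct.one_def,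
          TensorProduct.map_tmul]
        rfl
    obtain ⟨d, b, hb⟩ := grouplike_single mu _ ((hgl g).map f)
    obtain ⟨d', b', hb'⟩ := grouplike_single mu _ ((hgl g⁻¹).map f)
    have hunit : b * (d • b') = 1 := by
      have h1 : f (SkewMonoidAlgebra.single g (1 : TA k lam)) *
          f (SkewMonoidAlgebra.single g⁻¹ (1 : TA k lam)) = 1 := by
        rw [← fmul, SkewMonoidAlgebra.single_mul_single, mul_inv_cancel, smul_one, mul_one,
          ← SkewMonoidAlgebra.one_def, fone]
      rw [hb, hb', SkewMonoidAlgebra.single_mul_single] at h1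
      have h2 : d * d' = 1 := by
        by_contra hne
        have h3 := congrArg (fun z : E mu => z.coeff 1) h1
        simp only [SkewMonoidAlgebra.coeff_single, SkewMonoidAlgebra.one_def,
          Finsupp.single_apply, if_neg hne, if_true] at h3
        exact nontriv mu h3.symm
      rw [h2, SkewMonoidAlgebra.one_def] at h1
      exact SkewMonoidAlgebra.single_injective _ h1
    refine ⟨d, ?_⟩
    -- the commutation relation
    have hc : (SkewMonoidAlgebra.single g (1 : TA k lam) : E lam) * x =
        (x + par lam (Multiplicative.toAdd g) • (x * x)) * SkewMonoidAlgebra.single g 1 := by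
      rw [hx, sg1, s1g, SkewMonoidAlgebra.smul_single, ← SkewMonoidAlgebra.single_add, s1g,
        smul_def', sig_rt, mul_one, one_mul, pow_two]
    have hc' := congrArg f hc
    rw [fmul, fmul, fadd, fsmul, fmul, ha, hb, sg1, s1g, SkewMonoidAlgebra.smul_single,
      ← SkewMonoidAlgebra.single_add, s1g] at hc'
    have hc2 := SkewMonoidAlgebra.single_injective _ hc'
    rw [smul_def', sig_eq] at hc2
    have hc3 : b * (par mu (Multiplicative.toAdd d) • (sig 1 a - a)) =
        b * (par lam (Multiplicative.toAdd g) • a ^ 2) := by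
      have e1 : b * (a + par mu (Multiplicative.toAdd d) • (sig 1 a - a)) =
        b * a + b * (par mu (Multiplicative.toAdd d) • (sig 1 a - a)) := mul_add _ _ _
      rw [e1] at hc2
      rw [pow_two]
      linear_combination hc2
    have hbu : IsUnit b := IsUnit.of_mul_eq_one _ hunit
    exact hbu.mul_left_cancel hc3
  obtain ⟨d1, h1⟩ := hrel (Multiplicative.ofAdd (1, 0))
  obtain ⟨d2, h2⟩ := hrel (Multiplicative.ofAdd (0, 1))
  have p1 : par lam (Multiplicative.toAdd (Multiplicative.ofAdd ((1 : ZMod 2), (0 : ZMod 2)))) = 1 := by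
    simp [par]
  have p2 : par lam (Multiplicative.toAdd (Multiplicative.ofAdd ((0 : ZMod 2), (1 : ZMod 2)))) = lam := by
    simp [par]
  rw [p1, one_smul] at h1
  rw [p2, ← h1, smul_smul] at h2
  have hD : sig 1 a - a ≠ 0 := by
    intro h0
    rw [h0, smul_zero] at h1
    exact hsq h1.symm
  refine ⟨Multiplicative.toAdd d1, Multiplicative.toAdd d2, ?_, ?_⟩
  · intro h0
    rw [h0, zero_smul] at h1
    exact hsq h1.symm
  · have h3 : (par mu (Multiplicative.toAdd d2) - lam * par mu (Multiplicative.toAdd d1)) •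
        (sig 1 a - a) = 0 := by
      rw [sub_smul, h2, sub_self]
    rcases smul_eq_zero.1 h3 with h4 | h4
    · exact sub_eq_zero.1 h4
    · exact absurd h4 hD

end Pool.Agent.H782R3.Bicross
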