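import Mathlib

set_option autoImplicit false

namespace Pool.Agent.H782R3.RG

/-- the six-element spindle: `0,1,2,3` act by constants on everything, `4` and `5` act on
`{0,1,2,3}` by two commuting nilpotent maps and trivially on `{4,5}` -/
def op (a b : Fin 6) : Fin 6 :=
  (![![0, 1, 2, 3, 0, 0], ![0, 1, 2, 3, 2, 3], ![0, 1, 2, 3, 0, 0], ![0, 1, 2, 3, 0, 0],
    ![0, 1, 2, 3, 4, 4], ![0, 1, 2, 3, 5, 5]] : Fin 6 → Fin 6 → Fin 6) a b

theorem op_distrib : ∀ a b c : Fin 6, op (op a b) c = op (op a c) (op b c) := by decide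

theorem op_idem : ∀ a : Fin 6, op a a = a := by decide

/-- chains on words of length `m` -/
abbrev T (m : ℕ) : Type := (Fin m → Fin 6) →₀ ℚ

/-- delete the letter `i`, acting by it on the earlier letters -/
def del {m : ℕ} (i : Fin (m + 1)) (w : Fin (m + 1) → Fin 6) : Fin m → Fin 6 :=
  fun j => if Fin.castSucc j < i then op (w (i.succAbove j)) (w i) else w (i.succAbove j)

theorem del_zero {m : ℕ} (a : Fin 6) (w : Fin m → Fin 6) :
    del 0 (Fin.cons a w : Fin (m + 1) → Fin 6) = w := by
  funext j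
  simp [del]

theorem del_succ {m : ℕ} (a : Fin 6) (w : Fin (m + 1) → Fin 6) (i : Fin (m + 1)) :
    del i.succ (Fin.cons a w : Fin (m + 2) → Fin 6) = Fin.cons (op a (w i)) (del i w) := by
  funext j
  refine Fin.cases ?_ (fun j => ?_) j
  · simp [del]
  · simp only [del, Fin.cons_succ, Fin.castSucc_lt_succ_iff, Fin.succ_succAbove_succ]
    congr 1

/-- left multiplication by a letter -/
noncomputable def L (a : Fin 6) (m : ℕ) : T m →ₗ[ℚ] T (m + 1) :=
  Finsupp.lmapDomain ℚ ℚ (fun w => (Fin.cons a w : Fin (m + 1) → Fin 6))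

theorem L_single (a : Fin 6) (m : ℕ) (w : Fin m → Fin 6) (r : ℚ) :
    L a m (Finsupp.single w r) = Finsupp.single (Fin.cons a w : Fin (m + 1) → Fin 6) r := by
  simp [L]

theorem single_eq_L {m : ℕ} (w : Fin (m + 1) → Fin 6) (r : ℚ) :
    (Finsupp.single w r : T (m + 1)) = L (w 0) m (Finsupp.single (Fin.tail w) r) := by
  rw [L_single, Fin.cons_self_tail]

theorem lext {m : ℕ} {M : Type*} [AddCommMonoid M] [Module ℚ M] {f g : T (m + 1) →ₗ[ℚ] M}
    (h : ∀ a u, f (L a m u) = g (L a m u)) : f = g := by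
  apply Finsupp.lhom_ext
  intro w r
  rw [single_eq_L, h]

/-- the part of the boundary coming from the letter `c` -/
noncomputable def P (c : Fin 6) (m : ℕ) : T (m + 1) →ₗ[ℚ] T m :=
  Finsupp.linearCombination ℚ (fun w : Fin (m + 1) → Fin 6 => ∑ i : Fin (m + 1),
    if w i = c then ((-1 : ℚ) ^ (i : ℕ)) • (Finsupp.single (del i w) (1 : ℚ) : T m) else 0)

theorem P_single (c : Fin 6) (m : ℕ) (w : Fin (m + 1) → Fin 6) :
    P c m (Finsupp.single w 1) = ∑ i : Fin (m + 1),
    if w i = c then ((-1 : ℚ) ^ (i : ℕ)) • (Finsupp.single (del i w) (1 : ℚ) : T m) else 0 := by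
  rw [P, Finsupp.linearCombination_single, one_smul]

theorem P_zero (c a : Fin 6) (u : T 0) : P c 0 (L a 0 u) = if a = c then u else 0 := by
  have h : (P c 0) ∘ₗ (L a 0) = if a = c then LinearMap.id else 0 := by
    apply Finsupp.lhom_ext'
    intro w
    apply LinearMap.ext_ring
    rw [LinearMap.comp_apply, LinearMap.comp_apply, LinearMap.comp_apply, Finsupp.lsingle_apply,
      L_single, P_single, Fin.sum_univ_succ, Fin.sum_univ_zero, add_zero, Fin.cons_zero, del_zero]
    split_ifs <;> simp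
  have := DFunLike.congr_fun h u
  rw [LinearMap.comp_apply] at this
  rw [this]
  split_ifs <;> rfl

theorem P_succ (c a : Fin 6) (m : ℕ) (u : T (m + 1)) :
    P c (m + 1) (L a (m + 1) u) = (if a = c then u else 0) - L (op a c) m (P c m u) := by
  have h : (P c (m + 1)) ∘ₗ (L a (m + 1)) = (if a = c then LinearMap.id else 0) -
      (L (op a c) m) ∘ₗ (P c m) := by
    apply Finsupp.lhom_ext'
    intro w
    apply LinearMap.ext_ring
    rw [LinearMap.comp_apply, LinearMap.comp_apply, LinearMap.comp_apply, Finsupp.lsingle_apply,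
      L_single, P_single, Fin.sum_univ_succ, LinearMap.sub_apply, LinearMap.comp_apply, P_single,
      map_sum, sub_eq_add_neg, ← Finset.sum_neg_distrib, Fin.cons_zero, del_zero]
    congr 1
    · split_ifs <;> simp
    · apply Finset.sum_congr rfl
      intro i _
      rw [Fin.cons_succ, del_succ]
      split_ifs with hc
      · rw [map_smul, L_single, hc, Fin.val_succ, pow_succ]
        simp
      · simp
  have := DFunLike.congr_fun h u
  rw [LinearMap.comp_apply] at this
  rw [this]
  split_ifs <;> rfl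

/-- the boundary -/
noncomputable def D (m : ℕ) : T (m + 1) →ₗ[ℚ] T m :=
  ∑ i : Fin (m + 1), ((-1 : ℚ) ^ (i : ℕ)) • Finsupp.lmapDomain ℚ ℚ (del i)

theorem D_single (m : ℕ) (w : Fin (m + 1) → Fin 6) :
    D m (Finsupp.single w 1) = ∑ i : Fin (m + 1),
      ((-1 : ℚ) ^ (i : ℕ)) • (Finsupp.single (del i w) (1 : ℚ) : T m) := by
  rw [D, LinearMap.sum_apply]
  apply Finset.sum_congr rfl
  intro i _
  rw [LinearMap.smul_apply, Finsupp.lmapDomain_apply, Finsupp.mapDomain_single]

theorem D_succ (a : Fin 6) (m : ℕ) (u : T (m + 1)) :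
    D (m + 1) (L a (m + 1) u) = u - ∑ c, L (op a c) m (P c m u) := by
  have h : (D (m + 1)) ∘ₗ (L a (m + 1)) = LinearMap.id - ∑ c, (L (op a c) m) ∘ₗ (P c m) := by
    apply Finsupp.lhom_ext'
    intro w
    apply LinearMap.ext_ring
    rw [LinearMap.comp_apply, LinearMap.comp_apply, LinearMap.comp_apply, Finsupp.lsingle_apply,
      L_single, D_single, Fin.sum_univ_succ, LinearMap.sub_apply, LinearMap.sum_apply, del_zero]
    have e : ∀ c, ((L (op a c) m) ∘ₗ (P c m)) (Finsupp.single w (1 : ℚ)) =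
        ∑ i : Fin (m + 1), if w i = c then ((-1 : ℚ) ^ (i : ℕ)) •
          (Finsupp.single (Fin.cons (op a c) (del i w) : Fin (m + 1) → Fin 6) (1 : ℚ) : T (m + 1))
          else 0 := by
      intro c
      rw [LinearMap.comp_apply, P_single, map_sum]
      apply Finset.sum_congr rfl
      intro i _
      split_ifs
      · rw [map_smul, L_single]
      · simp
    simp_rw [e]
    rw [Finset.sum_comm]
    simp only [Finset.sum_ite_eq, Finset.mem_univ, if_true]
    rw [sub_eq_add_neg, ← Finset.sum_neg_distrib]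
    congr 1
    · simp
    · apply Finset.sum_congr rfl
      intro i _
      rw [del_succ, Fin.val_succ, pow_succ]
      simp
  have := DFunLike.congr_fun h u
  rw [LinearMap.comp_apply] at this
  rw [this, LinearMap.sub_apply, LinearMap.sum_apply]
  rfl

end Pool.Agent.H782R3.RG
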