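import Mathlib
import Pool.Agent.H782R3.RankGrowth

set_option autoImplicit false

namespace Pool.Agent.H782R3.RG

theorem cancel (m : ℕ) : ∀ {M : Type} [AddCommGroup M] [Module ℚ M]
    (G : Fin 6 → Fin 6 → (T m →ₗ[ℚ] M)), (∀ a b, G a b = G b (op a b)) →
    ∀ u : T (m + 2), ∑ c, ∑ d, G c d (P d m (P c (m + 1) u)) = 0 := by
  induction m with
  | zero =>
    intro M _ _ G hG u
    have h : ∑ c, ∑ d, (G c d) ∘ₗ (P d 0) ∘ₗ (P c 1) = 0 := by
      apply lext
      intro e v
      simp only [LinearMap.sum_apply, LinearMap.comp_apply, P_succ, map_sub, P_zero,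
        Finset.sum_sub_distrib, LinearMap.zero_apply]
      have e1 : ∑ c, ∑ d, (G c d) (P d 0 (if e = c then v else 0)) =
          ∑ d, G e d (P d 0 v) := by
        rw [Finset.sum_eq_single e]
        · simp
        · intro b _ hb
          simp [Ne.symm hb]
        · simp
      have e2 : ∑ c, ∑ d, (G c d) (if op e c = d then P c 0 v else 0) =
          ∑ c, G c (op e c) (P c 0 v) := by
        apply Finset.sum_congr rfl
        intro c _
        rw [Finset.sum_eq_single (op e c)]
        · simp
        · intro b _ hb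
          simp [Ne.symm hb]
        · simp
      rw [e1, e2, sub_eq_zero]
      apply Finset.sum_congr rfl
      intro d _
      rw [hG e d]
    have := DFunLike.congr_fun h u
    simpa only [LinearMap.sum_apply, LinearMap.comp_apply, LinearMap.zero_apply] using this
  | succ m ih =>
    intro M _ _ G hG u
    have h : ∑ c, ∑ d, (G c d) ∘ₗ (P d (m + 1)) ∘ₗ (P c (m + 1 + 1)) = 0 := by
      apply lext
      intro e v
      simp only [LinearMap.sum_apply, LinearMap.comp_apply, P_succ, map_sub,
        Finset.sum_sub_distrib, LinearMap.zero_apply]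
      have e1 : ∑ c, ∑ d, (G c d) (P d (m + 1) (if e = c then v else 0)) =
          ∑ d, G e d (P d (m + 1) v) := by
        rw [Finset.sum_eq_single e]
        · simp
        · intro b _ hb
          simp [Ne.symm hb]
        · simp
      have e2 : ∑ c, ∑ d, (G c d) (if op e c = d then P c (m + 1) v else 0) =
          ∑ c, G c (op e c) (P c (m + 1) v) := by
        apply Finset.sum_congr rfl
        intro c _
        rw [Finset.sum_eq_single (op e c)]
        · simp
        · intro b _ hb
          simp [Ne.symm hb]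
        · simp
      have e3 : ∑ c, ∑ d, (G c d) (L (op (op e c) d) m (P d m (P c (m + 1) v))) = 0 := by
        have := ih (fun c d => (G c d) ∘ₗ (L (op (op e c) d) m)) (by
          intro a b
          rw [hG a b, op_distrib e a b]) v
        simpa only [LinearMap.comp_apply] using this
      have e4 : ∑ d, G e d (P d (m + 1) v) = ∑ c, G c (op e c) (P c (m + 1) v) := by
        apply Finset.sum_congr rfl
        intro d _
        rw [hG e d]
      rw [e1, e2, e3, e4]
      abel
    have := DFunLike.congr_fun h u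
    simpa only [LinearMap.sum_apply, LinearMap.comp_apply, LinearMap.zero_apply] using this

/-- scalar version of the cancellation lemma -/
theorem cancel' (m : ℕ) (g : Fin 6 → Fin 6 → ℚ) (hg : ∀ a b, g a b = g b (op a b))
    (u : T (m + 2)) : ∑ c, ∑ d, g c d • (P d m (P c (m + 1) u)) = 0 := by
  have := cancel m (M := T m) (fun c d => g c d • LinearMap.id) (by
    intro a b
    rw [hg a b]) u
  simpa only [LinearMap.smul_apply, LinearMap.id_apply] using this

theorem P44 (m : ℕ) (u : T (m + 2)) : P 4 m (P 4 (m + 1) u) = 0 := by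
  have := cancel' m (fun a b => if a = 4 ∧ b = 4 then 1 else 0) (by decide) u
  rw [Finset.sum_eq_single 4, Finset.sum_eq_single 4] at this
  · simpa using this
  · intro b _ hb; simp [hb]
  · simp
  · intro b _ hb; simp [hb]
  · simp

theorem P55 (m : ℕ) (u : T (m + 2)) : P 5 m (P 5 (m + 1) u) = 0 := by
  have := cancel' m (fun a b => if a = 5 ∧ b = 5 then 1 else 0) (by decide) u
  rw [Finset.sum_eq_single 5, Finset.sum_eq_single 5] at this
  · simpa using this
  · intro b _ hb; simp [hb]
  · simp
  · intro b _ hb; simp [hb]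
  · simp

theorem P45 (m : ℕ) (u : T (m + 2)) : P 4 m (P 5 (m + 1) u) = - P 5 m (P 4 (m + 1) u) := by
  have := cancel' m (fun a b => if (a = 4 ∧ b = 5) ∨ (a = 5 ∧ b = 4) then 1 else 0) (by decide) u
  simp only [Fin.sum_univ_six] at this
  simp at this
  rw [add_comm] at this
  exact eq_neg_of_add_eq_zero_left this

/-- drop the first letter -/
noncomputable def pi (m : ℕ) : T (m + 1) →ₗ[ℚ] T m :=
  Finsupp.lmapDomain ℚ ℚ (fun w => (Fin.tail w : Fin m → Fin 6))

theorem pi_L (a : Fin 6) (m : ℕ) (u : T m) : pi m (L a m u) = u := by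
  have h : (pi m) ∘ₗ (L a m) = LinearMap.id := by
    apply Finsupp.lhom_ext'
    intro w
    apply LinearMap.ext_ring
    simp [pi, L]
  exact DFunLike.congr_fun h u

/-- double the first letter -/
noncomputable def s (m : ℕ) : T (m + 1) →ₗ[ℚ] T (m + 2) :=
  Finsupp.lmapDomain ℚ ℚ (fun w => (Fin.cons (w 0) w : Fin (m + 2) → Fin 6))

theorem s_L (a : Fin 6) (m : ℕ) (u : T m) : s m (L a m u) = L a (m + 1) (L a m u) := by
  have h : (s m) ∘ₗ (L a m) = (L a (m + 1)) ∘ₗ (L a m) := by
    apply Finsupp.lhom_ext'
    intro w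
    apply LinearMap.ext_ring
    simp [s, L]
  exact DFunLike.congr_fun h u

theorem pi_s (m : ℕ) (v : T (m + 1)) : pi (m + 1) (s m v) = v := by
  have h : (pi (m + 1)) ∘ₗ (s m) = LinearMap.id := by
    apply lext
    intro a u
    rw [LinearMap.comp_apply, s_L, pi_L]
    rfl
  exact DFunLike.congr_fun h v

/-- the differential with the module `ℚ X` as coefficients -/
noncomputable def W (m : ℕ) : T (m + 1) →ₗ[ℚ] T m := pi m - D m

theorem W_L (a : Fin 6) (m : ℕ) (u : T (m + 1)) :
    W (m + 1) (L a (m + 1) u) = ∑ c, L (op a c) m (P c m u) := by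
  rw [W, LinearMap.sub_apply, pi_L, D_succ]
  abel

theorem D_s (m : ℕ) (v : T (m + 2)) : D (m + 2) (s (m + 1) v) = s m (W (m + 1) v) := by
  have h : (D (m + 2)) ∘ₗ (s (m + 1)) = (s m) ∘ₗ (W (m + 1)) := by
    apply lext
    intro a u
    rw [LinearMap.comp_apply, LinearMap.comp_apply, s_L, D_succ, W_L, map_sum]
    simp only [P_succ, map_sub, s_L, Finset.sum_sub_distrib]
    have e1 : ∑ c, L (op a c) (m + 1) (if a = c then u else 0) = L a (m + 1) u := by
      rw [Finset.sum_eq_single a]
      · simp [op_idem]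
      · intro b _ hb
        simp [Ne.symm hb]
      · simp
    rw [e1]
    abel
  exact DFunLike.congr_fun h v

theorem W_s (m : ℕ) (v : T (m + 2)) : W (m + 2) (s (m + 1) v) + s m (W (m + 1) v) = v := by
  rw [← D_s]
  change (pi (m + 2) - D (m + 2)) (s (m + 1) v) + _ = _
  rw [LinearMap.sub_apply, pi_s]
  abel

theorem W_W (m : ℕ) (v : T (m + 3)) : W (m + 1) (W (m + 2) v) = 0 := by
  have h : (W (m + 1)) ∘ₗ (W (m + 2)) = 0 := by
    apply lext
    intro a u
    rw [LinearMap.comp_apply, W_L, map_sum]
    simp only [W_L]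
    exact cancel m (fun c d => L (op (op a c) d) m) (by
      intro x y
      rw [op_distrib]) u
  exact DFunLike.congr_fun h v

end Pool.Agent.H782R3.RG
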