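import Mathlib
import Pool.Agent.H782R3.RankGrowth2

set_option autoImplicit false

namespace Pool.Agent.H782R3.RG

open Module

theorem finrank_T (m : ℕ) : finrank ℚ (T m) = 6 ^ m := by
  rw [Module.finrank_finsupp_self]
  simp

/-- dimension count for an exact pair -/
theorem exact_count {V₀ V₁ V₂ : Type*} [AddCommGroup V₀] [Module ℚ V₀] [AddCommGroup V₁]
    [Module ℚ V₁] [AddCommGroup V₂] [Module ℚ V₂] [FiniteDimensional ℚ V₂]
    (g : V₂ →ₗ[ℚ] V₁) (f : V₁ →ₗ[ℚ] V₀) (h : ∀ v, f v = 0 ↔ ∃ w, g w = v) :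
    finrank ℚ (LinearMap.ker f) + finrank ℚ (LinearMap.ker g) = finrank ℚ V₂ := by
  have h1 : LinearMap.ker f = LinearMap.range g := by
    ext v
    rw [LinearMap.mem_ker, LinearMap.mem_range, h]
  rw [h1]
  exact LinearMap.finrank_range_add_finrank_ker g

/-- `P_4 + P_5` -/
noncomputable def Q (m : ℕ) : T (m + 1) →ₗ[ℚ] T m := P 4 m + P 5 m

theorem Q_Q (m : ℕ) (u : T (m + 2)) : Q m (Q (m + 1) u) = 0 := by
  simp only [Q, LinearMap.add_apply, map_add]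
  rw [P44, P55, P45]
  abel

theorem Q_L (m : ℕ) (u : T (m + 1)) : Q (m + 1) (L 4 (m + 1) u) = u - L 4 m (Q m u) := by
  simp only [Q, LinearMap.add_apply, map_add]
  rw [P_succ, P_succ]
  have h1 : op 4 4 = 4 := rfl
  have h2 : op 4 5 = 4 := rfl
  rw [h1, h2, if_pos rfl, if_neg (by decide)]
  abel

theorem z_rec (m : ℕ) : finrank ℚ (LinearMap.ker (Q m)) + finrank ℚ (LinearMap.ker (Q (m + 1))) =
    6 ^ (m + 2) := by
  rw [← finrank_T]
  apply exact_count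
  intro v
  constructor
  · intro hv
    refine ⟨L 4 (m + 1) v, ?_⟩
    rw [Q_L, hv, map_zero, sub_zero]
  · rintro ⟨w, rfl⟩
    exact Q_Q m w

theorem omega_rec (m : ℕ) : finrank ℚ (LinearMap.ker (W (m + 1))) +
    finrank ℚ (LinearMap.ker (W (m + 2))) = 6 ^ (m + 3) := by
  rw [← finrank_T]
  apply exact_count
  intro v
  constructor
  · intro hv
    refine ⟨s (m + 1) v, ?_⟩
    have := W_s m v
    rwa [hv, map_zero, add_zero] at this
  · rintro ⟨w, rfl⟩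
    exact W_W m w

theorem k_rec (m : ℕ) : finrank ℚ (LinearMap.ker (P 4 m)) +
    finrank ℚ (LinearMap.ker (P 4 (m + 1))) = 6 ^ (m + 2) := by
  rw [← finrank_T]
  apply exact_count
  intro v
  constructor
  · intro hv
    refine ⟨L 4 (m + 1) v, ?_⟩
    rw [P_succ, hv, map_zero, sub_zero, if_pos rfl]
  · rintro ⟨w, rfl⟩
    exact P44 m w

theorem k_zero : finrank ℚ (LinearMap.ker (P 4 0)) = 5 := by
  have h := LinearMap.finrank_range_add_finrank_ker (P 4 0)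
  have h1 : LinearMap.range (P 4 0) = ⊤ := by
    rw [LinearMap.range_eq_top]
    intro u
    exact ⟨L 4 0 u, by rw [P_zero, if_pos rfl]⟩
  rw [h1, finrank_top, finrank_T, finrank_T] at h
  omega

/-- the joint kernel -/
noncomputable def R (m : ℕ) : Submodule ℚ (T (m + 1)) :=
  LinearMap.ker (P 4 m) ⊓ LinearMap.ker (P 5 m)

theorem mem_R (m : ℕ) (u : T (m + 1)) : u ∈ R m ↔ P 4 m u = 0 ∧ P 5 m u = 0 := by
  rw [R, Submodule.mem_inf, LinearMap.mem_ker, LinearMap.mem_ker]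

theorem finrank_ker_restrict (m : ℕ) :
    finrank ℚ (LinearMap.ker ((P 5 m).domRestrict (LinearMap.ker (P 4 m)))) =
      finrank ℚ (R m) := by
  have h : (LinearMap.ker ((P 5 m).domRestrict (LinearMap.ker (P 4 m)))).map
      (LinearMap.ker (P 4 m)).subtype = R m := by
    ext u
    rw [Submodule.mem_map, mem_R]
    constructor
    · rintro ⟨⟨y, hy⟩, hy', rfl⟩
      exact ⟨hy, hy'⟩
    · rintro ⟨h1, h2⟩
      exact ⟨⟨u, h1⟩, h2, rfl⟩
  rw [← h]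
  exact LinearEquiv.finrank_eq (Submodule.equivMapOfInjective _
    (Submodule.injective_subtype _) _)

theorem kap_rec (m : ℕ) : finrank ℚ (R m) + finrank ℚ (R (m + 1)) =
    finrank ℚ (LinearMap.ker (P 4 (m + 1))) := by
  have h := LinearMap.finrank_range_add_finrank_ker
    ((P 5 (m + 1)).domRestrict (LinearMap.ker (P 4 (m + 1))))
  rw [finrank_ker_restrict] at h
  have h1 : LinearMap.range ((P 5 (m + 1)).domRestrict (LinearMap.ker (P 4 (m + 1)))) = R m := by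
    ext u
    rw [LinearMap.mem_range, mem_R]
    constructor
    · rintro ⟨⟨y, hy⟩, rfl⟩
      rw [LinearMap.mem_ker] at hy
      constructor
      · change P 4 m (P 5 (m + 1) y) = 0
        rw [P45, hy, map_zero, neg_zero]
      · exact P55 m y
    · rintro ⟨h1, h2⟩
      refine ⟨⟨L 5 (m + 1) u, ?_⟩, ?_⟩
      · rw [LinearMap.mem_ker, P_succ, h1, map_zero, sub_zero, if_neg (by decide)]
      · change P 5 (m + 1) (L 5 (m + 1) u) = u
        rw [P_succ, h2, map_zero, sub_zero, if_pos rfl]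
  rw [h1] at h
  exact h

theorem kap_zero : finrank ℚ (R 0) = 4 := by
  have h := LinearMap.finrank_range_add_finrank_ker
    ((P 5 0).domRestrict (LinearMap.ker (P 4 0)))
  rw [finrank_ker_restrict] at h
  have h1 : LinearMap.range ((P 5 0).domRestrict (LinearMap.ker (P 4 0))) = ⊤ := by
    rw [LinearMap.range_eq_top]
    intro u
    refine ⟨⟨L 5 0 u, ?_⟩, ?_⟩
    · rw [LinearMap.mem_ker, P_zero, if_neg (by decide)]
    · change P 5 0 (L 5 0 u) = u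
      rw [P_zero, if_pos rfl]
  rw [h1, finrank_top, finrank_T, k_zero] at h
  omega

/-! ### the kernel of the boundary -/

/-- coefficient extraction -/
noncomputable def cp (a : Fin 6) (m : ℕ) : T (m + 1) →ₗ[ℚ] T m :=
  Finsupp.linearCombination ℚ (fun w : Fin (m + 1) → Fin 6 =>
    if w 0 = a then (Finsupp.single (Fin.tail w) (1 : ℚ) : T m) else 0)

theorem cp_L (a b : Fin 6) (m : ℕ) (u : T m) : cp a m (L b m u) = if b = a then u else 0 := by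
  have h : (cp a m) ∘ₗ (L b m) = if b = a then LinearMap.id else 0 := by
    apply Finsupp.lhom_ext'
    intro w
    apply LinearMap.ext_ring
    rw [LinearMap.comp_apply, LinearMap.comp_apply, LinearMap.comp_apply, Finsupp.lsingle_apply,
      L_single, cp, Finsupp.linearCombination_single, one_smul, Fin.cons_zero, Fin.tail_cons]
    split_ifs <;> simp
  have := DFunLike.congr_fun h u
  rw [LinearMap.comp_apply] at this
  rw [this]
  split_ifs <;> rfl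

/-- the coordinates on the chains -/
noncomputable def Xi (m : ℕ) :
    (T (m + 1) × T (m + 1) × T (m + 1) × T (m + 1) × T (m + 1) × T (m + 1)) →ₗ[ℚ] T (m + 2) where
  toFun u := s m u.1 + (L 1 (m + 1) u.2.1 - L 0 (m + 1) u.2.1) +
    (L 2 (m + 1) u.2.2.1 - L 0 (m + 1) u.2.2.1) +
    (L 3 (m + 1) u.2.2.2.1 - L 0 (m + 1) u.2.2.2.1) +
    (L 4 (m + 1) u.2.2.2.2.1 - L 0 (m + 1) u.2.2.2.2.1) +
    (L 5 (m + 1) u.2.2.2.2.2 - L 0 (m + 1) u.2.2.2.2.2)
  map_add' u v := by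
    simp only [Prod.fst_add, Prod.snd_add, map_add]
    abel
  map_smul' c u := by
    simp only [Prod.smul_fst, Prod.smul_snd, map_smul, RingHom.id_apply, smul_add, smul_sub]

theorem Xi_apply (m : ℕ) (u0 u1 u2 u3 u4 u5 : T (m + 1)) :
    Xi m (u0, u1, u2, u3, u4, u5) = s m u0 + (L 1 (m + 1) u1 - L 0 (m + 1) u1) +
    (L 2 (m + 1) u2 - L 0 (m + 1) u2) + (L 3 (m + 1) u3 - L 0 (m + 1) u3) +
    (L 4 (m + 1) u4 - L 0 (m + 1) u4) + (L 5 (m + 1) u5 - L 0 (m + 1) u5) := rfl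

theorem Xi_injective (m : ℕ) : Function.Injective (Xi m) := by
  rw [injective_iff_map_eq_zero]
  rintro ⟨u0, u1, u2, u3, u4, u5⟩ h
  rw [Xi_apply] at h
  have h0 : u0 = 0 := by
    have := congrArg (pi (m + 1)) h
    simpa only [map_add, map_sub, pi_L, pi_s, sub_self, add_zero, map_zero] using this
  rw [h0, map_zero, zero_add] at h
  have h1 : u1 = 0 := by
    have := congrArg (cp 1 (m + 1)) h
    simpa [cp_L] using this
  have h2 : u2 = 0 := by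
    have := congrArg (cp 2 (m + 1)) h
    simpa [cp_L] using this
  have h3 : u3 = 0 := by
    have := congrArg (cp 3 (m + 1)) h
    simpa [cp_L] using this
  have h4 : u4 = 0 := by
    have := congrArg (cp 4 (m + 1)) h
    simpa [cp_L] using this
  have h5 : u5 = 0 := by
    have := congrArg (cp 5 (m + 1)) h
    simpa [cp_L] using this
  rw [h0, h1, h2, h3, h4, h5]
  rfl

theorem Xi_bijective (m : ℕ) : Function.Bijective (Xi m) := by
  refine ⟨Xi_injective m, ?_⟩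
  refine (LinearMap.injective_iff_surjective_of_finrank_eq_finrank ?_).1 (Xi_injective m)
  rw [Module.finrank_prod, Module.finrank_prod, Module.finrank_prod, Module.finrank_prod,
    Module.finrank_prod, finrank_T, finrank_T]
  ring

theorem D_diff1 (m : ℕ) (u : T (m + 1)) : D (m + 1) (L 1 (m + 1) u - L 0 (m + 1) u) =
    - (L 2 m (P 4 m u) - L 0 m (P 4 m u)) - (L 3 m (P 5 m u) - L 0 m (P 5 m u)) := by
  rw [map_sub, D_succ, D_succ, Fin.sum_univ_six, Fin.sum_univ_six]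
  have e : op 1 0 = 0 ∧ op 1 1 = 1 ∧ op 1 2 = 2 ∧ op 1 3 = 3 ∧ op 1 4 = 2 ∧ op 1 5 = 3 ∧
    op 0 0 = 0 ∧ op 0 1 = 1 ∧ op 0 2 = 2 ∧ op 0 3 = 3 ∧ op 0 4 = 0 ∧ op 0 5 = 0 := by decide
  obtain ⟨e1, e2, e3, e4, e5, e6, e7, e8, e9, e10, e11, e12⟩ := e
  rw [e1, e2, e3, e4, e5, e6, e7, e8, e9, e10, e11, e12]
  abel

theorem D_diff2 (m : ℕ) (u : T (m + 1)) : D (m + 1) (L 2 (m + 1) u - L 0 (m + 1) u) = 0 := by
  rw [map_sub, D_succ, D_succ, Fin.sum_univ_six, Fin.sum_univ_six]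
  have e : op 2 0 = 0 ∧ op 2 1 = 1 ∧ op 2 2 = 2 ∧ op 2 3 = 3 ∧ op 2 4 = 0 ∧ op 2 5 = 0 ∧
    op 0 0 = 0 ∧ op 0 1 = 1 ∧ op 0 2 = 2 ∧ op 0 3 = 3 ∧ op 0 4 = 0 ∧ op 0 5 = 0 := by decide
  obtain ⟨e1, e2, e3, e4, e5, e6, e7, e8, e9, e10, e11, e12⟩ := e
  rw [e1, e2, e3, e4, e5, e6, e7, e8, e9, e10, e11, e12]
  abel

theorem D_diff3 (m : ℕ) (u : T (m + 1)) : D (m + 1) (L 3 (m + 1) u - L 0 (m + 1) u) = 0 := by
  rw [map_sub, D_succ, D_succ, Fin.sum_univ_six, Fin.sum_univ_six]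
  have e : op 3 0 = 0 ∧ op 3 1 = 1 ∧ op 3 2 = 2 ∧ op 3 3 = 3 ∧ op 3 4 = 0 ∧ op 3 5 = 0 ∧
    op 0 0 = 0 ∧ op 0 1 = 1 ∧ op 0 2 = 2 ∧ op 0 3 = 3 ∧ op 0 4 = 0 ∧ op 0 5 = 0 := by decide
  obtain ⟨e1, e2, e3, e4, e5, e6, e7, e8, e9, e10, e11, e12⟩ := e
  rw [e1, e2, e3, e4, e5, e6, e7, e8, e9, e10, e11, e12]
  abel

theorem D_diff4 (m : ℕ) (u : T (m + 1)) : D (m + 1) (L 4 (m + 1) u - L 0 (m + 1) u) =
    - (L 4 m (Q m u) - L 0 m (Q m u)) := by
  rw [map_sub, D_succ, D_succ, Fin.sum_univ_six, Fin.sum_univ_six]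
  have e : op 4 0 = 0 ∧ op 4 1 = 1 ∧ op 4 2 = 2 ∧ op 4 3 = 3 ∧ op 4 4 = 4 ∧ op 4 5 = 4 ∧
    op 0 0 = 0 ∧ op 0 1 = 1 ∧ op 0 2 = 2 ∧ op 0 3 = 3 ∧ op 0 4 = 0 ∧ op 0 5 = 0 := by decide
  obtain ⟨e1, e2, e3, e4, e5, e6, e7, e8, e9, e10, e11, e12⟩ := e
  rw [e1, e2, e3, e4, e5, e6, e7, e8, e9, e10, e11, e12, Q, LinearMap.add_apply, map_add, map_add]
  abel

theorem D_diff5 (m : ℕ) (u : T (m + 1)) : D (m + 1) (L 5 (m + 1) u - L 0 (m + 1) u) =
    - (L 5 m (Q m u) - L 0 m (Q m u)) := by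
  rw [map_sub, D_succ, D_succ, Fin.sum_univ_six, Fin.sum_univ_six]
  have e : op 5 0 = 0 ∧ op 5 1 = 1 ∧ op 5 2 = 2 ∧ op 5 3 = 3 ∧ op 5 4 = 5 ∧ op 5 5 = 5 ∧
    op 0 0 = 0 ∧ op 0 1 = 1 ∧ op 0 2 = 2 ∧ op 0 3 = 3 ∧ op 0 4 = 0 ∧ op 0 5 = 0 := by decide
  obtain ⟨e1, e2, e3, e4, e5, e6, e7, e8, e9, e10, e11, e12⟩ := e
  rw [e1, e2, e3, e4, e5, e6, e7, e8, e9, e10, e11, e12, Q, LinearMap.add_apply, map_add, map_add]
  abel

theorem D_Xi (m : ℕ) (u0 u1 u2 u3 u4 u5 : T (m + 2)) :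
    D (m + 2) (Xi (m + 1) (u0, u1, u2, u3, u4, u5)) = s m (W (m + 1) u0) +
      (- (L 2 (m + 1) (P 4 (m + 1) u1) - L 0 (m + 1) (P 4 (m + 1) u1)) -
        (L 3 (m + 1) (P 5 (m + 1) u1) - L 0 (m + 1) (P 5 (m + 1) u1))) +
      (- (L 4 (m + 1) (Q (m + 1) u4) - L 0 (m + 1) (Q (m + 1) u4))) +
      (- (L 5 (m + 1) (Q (m + 1) u5) - L 0 (m + 1) (Q (m + 1) u5))) := by
  rw [Xi_apply, map_add, map_add, map_add, map_add, map_add, D_s, D_diff1, D_diff2, D_diff3,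
    D_diff4, D_diff5]
  abel

theorem ker_iff (m : ℕ) (u0 u1 u2 u3 u4 u5 : T (m + 2)) :
    D (m + 2) (Xi (m + 1) (u0, u1, u2, u3, u4, u5)) = 0 ↔
      W (m + 1) u0 = 0 ∧ (P 4 (m + 1) u1 = 0 ∧ P 5 (m + 1) u1 = 0) ∧
        Q (m + 1) u4 = 0 ∧ Q (m + 1) u5 = 0 := by
  rw [D_Xi]
  constructor
  · intro h
    have h0 : W (m + 1) u0 = 0 := by
      have := congrArg (pi (m + 1)) h
      simpa only [map_add, map_sub, map_neg, pi_L, pi_s, sub_self, neg_zero, add_zero,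
        map_zero] using this
    rw [h0, map_zero, zero_add] at h
    refine ⟨h0, ⟨?_, ?_⟩, ?_, ?_⟩
    · have := congrArg (cp 2 (m + 1)) h
      simpa [cp_L] using this
    · have := congrArg (cp 3 (m + 1)) h
      simpa [cp_L] using this
    · have := congrArg (cp 4 (m + 1)) h
      simpa [cp_L] using this
    · have := congrArg (cp 5 (m + 1)) h
      simpa [cp_L] using this
  · rintro ⟨h0, ⟨h1, h2⟩, h3, h4⟩
    rw [h0, h1, h2, h3, h4]
    simp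

end Pool.Agent.H782R3.RG
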