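import Mathlib
import Pool.Agent.H782R3.RankGrowth3

set_option autoImplicit false

namespace Pool.Agent.H782R3.RG

open Module

/-- a product of submodules is the product of the spaces -/
noncomputable def prodEquiv {V V' : Type*} [AddCommGroup V] [Module ℚ V] [AddCommGroup V']
    [Module ℚ V'] (p : Submodule ℚ V) (q : Submodule ℚ V') : (p.prod q) ≃ₗ[ℚ] p × q where
  toFun x := (⟨x.1.1, x.2.1⟩, ⟨x.1.2, x.2.2⟩)
  invFun y := ⟨(y.1.1, y.2.1), ⟨y.1.2, y.2.2⟩⟩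
  left_inv _ := rfl
  right_inv _ := rfl
  map_add' _ _ := rfl
  map_smul' _ _ := rfl

theorem finrank_sprod {V V' : Type*} [AddCommGroup V] [Module ℚ V] [AddCommGroup V']
    [Module ℚ V'] [FiniteDimensional ℚ V] [FiniteDimensional ℚ V']
    (p : Submodule ℚ V) (q : Submodule ℚ V') :
    finrank ℚ (p.prod q : Submodule ℚ (V × V')) = finrank ℚ p + finrank ℚ q := by
  rw [(prodEquiv p q).finrank_eq, Module.finrank_prod]

/-- the kernel in coordinates -/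
noncomputable def K (m : ℕ) : Submodule ℚ
    (T (m + 2) × T (m + 2) × T (m + 2) × T (m + 2) × T (m + 2) × T (m + 2)) :=
  (LinearMap.ker (W (m + 1))).prod ((R (m + 1)).prod ((⊤ : Submodule ℚ (T (m + 2))).prod
    ((⊤ : Submodule ℚ (T (m + 2))).prod ((LinearMap.ker (Q (m + 1))).prod
      (LinearMap.ker (Q (m + 1)))))))

theorem map_K (m : ℕ) : (K m).map (Xi (m + 1)) = LinearMap.ker (D (m + 2)) := by
  ext v
  rw [Submodule.mem_map, LinearMap.mem_ker]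
  constructor
  · rintro ⟨⟨u0, u1, u2, u3, u4, u5⟩, hu, rfl⟩
    rw [ker_iff]
    obtain ⟨h0, h1, -, -, h4, h5⟩ := hu
    exact ⟨h0, (mem_R _ _).1 h1, h4, h5⟩
  · intro hv
    obtain ⟨⟨u0, u1, u2, u3, u4, u5⟩, rfl⟩ := (Xi_bijective (m + 1)).2 v
    rw [ker_iff] at hv
    obtain ⟨h0, h1, h4, h5⟩ := hv
    refine ⟨(u0, u1, u2, u3, u4, u5), ?_, rfl⟩
    exact ⟨h0, (mem_R _ _).2 h1, trivial, trivial, h4, h5⟩

theorem finrank_ker_D (m : ℕ) : finrank ℚ (LinearMap.ker (D (m + 2))) =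
    finrank ℚ (LinearMap.ker (W (m + 1))) + finrank ℚ (R (m + 1)) + 2 * 6 ^ (m + 2) +
      2 * finrank ℚ (LinearMap.ker (Q (m + 1))) := by
  rw [← map_K, ← LinearEquiv.finrank_eq (Submodule.equivMapOfInjective _ (Xi_injective (m + 1))
    (K m)), K, finrank_sprod, finrank_sprod, finrank_sprod, finrank_sprod, finrank_sprod,
    finrank_top, finrank_T]
  ring

theorem finrank_range_D (m : ℕ) : finrank ℚ (LinearMap.range (D m)) +
    finrank ℚ (LinearMap.ker (D m)) = 6 ^ (m + 1) := by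
  rw [LinearMap.finrank_range_add_finrank_ker, finrank_T]

/-- dimension of the kernel of the boundary -/
noncomputable def kD (m : ℕ) : ℕ := finrank ℚ (LinearMap.ker (D m))

/-- rank of the boundary -/
noncomputable def rD (m : ℕ) : ℕ := finrank ℚ (LinearMap.range (D m))

/-- dimension of the kernel of `W` -/
noncomputable def kW (m : ℕ) : ℕ := finrank ℚ (LinearMap.ker (W m))

/-- dimension of the kernel of `Q` -/
noncomputable def kQ (m : ℕ) : ℕ := finrank ℚ (LinearMap.ker (Q m))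

/-- dimension of the kernel of `P 4` -/
noncomputable def kP (m : ℕ) : ℕ := finrank ℚ (LinearMap.ker (P 4 m))

/-- dimension of `R` -/
noncomputable def kR (m : ℕ) : ℕ := finrank ℚ (R m)

theorem numbers (x4 x5 x6 r5 r6 w3 w4 w5 q3 q4 q5 p0 p1 p2 p3 p4 p5 c3 c4 c5 : ℕ)
    (e4 : x4 = w3 + c3 + 2 * 6 ^ 4 + 2 * q3) (e5 : x5 = w4 + c4 + 2 * 6 ^ 5 + 2 * q4)
    (e6 : x6 = w5 + c5 + 2 * 6 ^ 6 + 2 * q5) (f5 : r5 + x5 = 6 ^ 6) (f6 : r6 + x6 = 6 ^ 7)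
    (z3 : q3 + q4 = 6 ^ 5) (z4 : q4 + q5 = 6 ^ 6) (o3 : w3 + w4 = 6 ^ 5) (o4 : w4 + w5 = 6 ^ 6)
    (k0 : p0 + p1 = 6 ^ 2) (k1 : p1 + p2 = 6 ^ 3) (k2 : p2 + p3 = 6 ^ 4) (k3 : p3 + p4 = 6 ^ 5)
    (k4 : p4 + p5 = 6 ^ 6) (kz : p0 = 5) (a3 : c3 + c4 = p4) (a4 : c4 + c5 = p5) :
    ¬ (x5 - r6 = 6 * (x4 - r5)) := by
  norm_num at *
  omega

theorem kD_eq (m : ℕ) : kD (m + 2) = kW (m + 1) + kR (m + 1) + 2 * 6 ^ (m + 2) +
    2 * kQ (m + 1) := finrank_ker_D m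

theorem rD_eq (m : ℕ) : rD m + kD m = 6 ^ (m + 1) := finrank_range_D m

theorem kQ_eq (m : ℕ) : kQ m + kQ (m + 1) = 6 ^ (m + 2) := z_rec m

theorem kW_eq (m : ℕ) : kW (m + 1) + kW (m + 2) = 6 ^ (m + 3) := omega_rec m

theorem kP_eq (m : ℕ) : kP m + kP (m + 1) = 6 ^ (m + 2) := k_rec m

theorem kR_eq (m : ℕ) : kR m + kR (m + 1) = kP (m + 1) := kap_rec m

theorem k_zero' : kP 0 = 5 := k_zero

theorem final' : ¬ (kD 5 - rD 6 = 6 * (kD 4 - rD 5)) := by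
  have e4 := kD_eq 2
  have e5 := kD_eq 3
  have e6 := kD_eq 4
  have f5 := rD_eq 5
  have f6 := rD_eq 6
  have z3 := kQ_eq 3
  have z4 := kQ_eq 4
  have o3 := kW_eq 2
  have o4 := kW_eq 3
  have k0 := kP_eq 0
  have k1 := kP_eq 1
  have k2 := kP_eq 2
  have k3 := kP_eq 3
  have k4 := kP_eq 4
  have kz := k_zero'
  have a3 := kR_eq 3
  have a4 := kR_eq 4
  simp only [Nat.reduceAdd, Nat.reducePow, Nat.reduceMul] at e4 e5 e6 f5 f6 z3 z4 o3 o4 k0 k1 k2 k3 k4 kz a3 a4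
  omega

theorem final : ¬ (finrank ℚ (LinearMap.ker (D (4 + 1))) -
    finrank ℚ (LinearMap.range (D (4 + 2))) =
    6 * (finrank ℚ (LinearMap.ker (D 4)) - finrank ℚ (LinearMap.range (D (4 + 1))))) :=
  final'

end Pool.Agent.H782R3.RG
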